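import Pool.Agent.W719.AX.Gen

set_option autoImplicit false

namespace Pool.Agent.W414.AX

open Finset Filter Topology Metric
open Pool.Agent.W711.HT Pool.Agent.W719.AX

theorem exists_c (n k : ℕ) (hk : k < n) : ∃ c : Fin n → ℂ, ∀ j < n,
    ∑ i : Fin n, c i * ((1 / 2 : ℂ) ^ (i : ℕ)) ^ j = if j = k then 1 else 0 := by
  set v : Fin n → ℂ := fun i => (1 / 2 : ℂ) ^ (i : ℕ) with hv
  have hinj : Function.Injective v := by
    intro i j h
    have h1 := congrArg norm h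
    simp only [hv, norm_pow, norm_div, norm_one, Complex.norm_ofNat] at h1
    exact Fin.ext (pow_right_injective₀ (by norm_num) (by norm_num) h1)
  have hdet : IsUnit (Matrix.vandermonde v).det :=
    isUnit_iff_ne_zero.2 (Matrix.det_vandermonde_ne_zero_iff.2 hinj)
  refine ⟨Matrix.vecMul (Pi.single ⟨k, hk⟩ 1) (Matrix.vandermonde v)⁻¹, fun j hj => ?_⟩
  have h1 : Matrix.vecMul (Matrix.vecMul (Pi.single ⟨k, hk⟩ 1) (Matrix.vandermonde v)⁻¹)
      (Matrix.vandermonde v) = Pi.single ⟨k, hk⟩ 1 := by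
    rw [Matrix.vecMul_vecMul, Matrix.nonsing_inv_mul _ hdet, Matrix.vecMul_one]
  have h2 := congrFun h1 ⟨j, hj⟩
  rw [Pi.single_apply] at h2
  simp only [Fin.mk.injEq] at h2
  rw [← h2]
  rfl

theorem lim_lemma {X : Type} (T : Set X) (f : ℕ → X → ℂ) (C : ℝ) (hC : 0 ≤ C) (N0 : ℕ)
    (hN0 : 1 ≤ N0) (h : ∀ N, N0 ≤ N → ∀ x ∈ T, ‖f N x - f (N + 1) x‖ ≤ C / (N : ℝ) ^ 2) :
    ∃ F : X → ℂ, ∀ N, N0 ≤ N → ∀ x ∈ T, ‖f N x - F x‖ ≤ 2 * C / N := by
  have key : ∀ N, N0 ≤ N → ∀ x ∈ T, ∀ d : ℕ,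
      ‖f N x - f (N + d) x‖ ≤ 2 * C / N - 2 * C / ((N + d : ℕ) : ℝ) := by
    intro N hN x hx d
    induction d with
    | zero => simp
    | succ d ih =>
      have h1 := h (N + d) (by omega) x hx
      have hM : (1 : ℝ) ≤ ((N + d : ℕ) : ℝ) := by
        have : 1 ≤ N + d := by omega
        exact_mod_cast this
      set M : ℝ := ((N + d : ℕ) : ℝ) with hMdef
      have h2 : (((N + (d + 1) : ℕ)) : ℝ) = M + 1 := by rw [hMdef]; push_cast; ring
      rw [h2]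
      have h3 : C / M ^ 2 ≤ 2 * C / M - 2 * C / (M + 1) := by
        have h4 : 2 * C / M - 2 * C / (M + 1) = 2 * C / (M * (M + 1)) := by
          field_simp
          ring
        rw [h4, div_le_div_iff₀ (by positivity) (by positivity)]
        nlinarith [mul_nonneg hC (mul_nonneg (by linarith : (0 : ℝ) ≤ M) (by linarith : 0 ≤ M - 1))]
      calc ‖f N x - f (N + (d + 1)) x‖ = ‖(f N x - f (N + d) x) + (f (N + d) x - f (N + d + 1) x)‖ := by
            congr 1; rw [← add_assoc]; ring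
        _ ≤ ‖f N x - f (N + d) x‖ + ‖f (N + d) x - f (N + d + 1) x‖ := norm_add_le _ _
        _ ≤ (2 * C / N - 2 * C / M) + C / M ^ 2 := add_le_add ih h1
        _ ≤ _ := by linarith
  have key2 : ∀ N, N0 ≤ N → ∀ x ∈ T, ∀ d : ℕ, ‖f N x - f (N + d) x‖ ≤ 2 * C / N := by
    intro N hN x hx d
    have := key N hN x hx d
    have h1 : 0 ≤ 2 * C / ((N + d : ℕ) : ℝ) := by positivity
    linarith
  have hex : ∀ x, ∃ L : ℂ, x ∈ T → ∀ N, N0 ≤ N → ‖f N x - L‖ ≤ 2 * C / N := by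
    intro x
    by_cases hx : x ∈ T
    · have hcau : CauchySeq (fun n => f (N0 + n) x) := by
        refine cauchySeq_of_le_tendsto_0 (fun n => 4 * C / ((N0 + n : ℕ) : ℝ)) ?_ ?_
        · intro n m M hn hm
          obtain ⟨a, rfl⟩ := Nat.exists_eq_add_of_le hn
          obtain ⟨b, rfl⟩ := Nat.exists_eq_add_of_le hm
          have h1 := key2 (N0 + M) (by omega) x hx a
          have h2 := key2 (N0 + M) (by omega) x hx b
          rw [← add_assoc, ← add_assoc, dist_eq_norm]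
          calc ‖f (N0 + M + a) x - f (N0 + M + b) x‖ =
              ‖(f (N0 + M) x - f (N0 + M + b) x) - (f (N0 + M) x - f (N0 + M + a) x)‖ := by
                congr 1; ring
            _ ≤ ‖f (N0 + M) x - f (N0 + M + b) x‖ + ‖f (N0 + M) x - f (N0 + M + a) x‖ :=
                norm_sub_le _ _
            _ ≤ 2 * C / ((N0 + M : ℕ) : ℝ) + 2 * C / ((N0 + M : ℕ) : ℝ) := add_le_add h2 h1
            _ = _ := by ring
        · have h1 := tendsto_const_div_atTop_nhds_zero_nat (4 * C)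
          exact h1.comp (tendsto_add_atTop_nat N0 |>.congr fun n => by rw [add_comm])
      obtain ⟨L, hL⟩ := cauchySeq_tendsto_of_complete hcau
      refine ⟨L, fun _ N hN => ?_⟩
      obtain ⟨e, rfl⟩ := Nat.exists_eq_add_of_le hN
      have h1 : Tendsto (fun d => f (N0 + e + d) x) atTop (𝓝 L) := by
        have h2 : Tendsto (fun d => f (N0 + (d + e)) x) atTop (𝓝 L) :=
          hL.comp (tendsto_add_atTop_nat e)
        refine h2.congr fun d => ?_
        congr 1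
        omega
      have h3 : Tendsto (fun d => ‖f (N0 + e) x - f (N0 + e + d) x‖) atTop
          (𝓝 ‖f (N0 + e) x - L‖) := (tendsto_const_nhds.sub h1).norm
      exact le_of_tendsto h3 (Eventually.of_forall fun d => key2 _ hN x hx d)
    · exact ⟨0, fun h' => absurd h' hx⟩
  choose F hF using hex
  exact ⟨F, fun N hN x hx => hF x hx N hN⟩

theorem isOpen_Rc (ρ τ : ℝ) : IsOpen (Rc ρ τ) := by
  have h1 : IsOpen {z : ℂ | |z.re| < ρ} := isOpen_lt Complex.continuous_re.abs continuous_const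
  have h2 : IsOpen {z : ℂ | |z.im| < τ} := isOpen_lt Complex.continuous_im.abs continuous_const
  exact h1.inter h2

theorem Rc_mono {ρ τ ρ' τ' : ℝ} (h1 : ρ' ≤ ρ) (h2 : τ' ≤ τ) : Rc ρ' τ' ⊆ Rc ρ τ :=
  fun _ hz => ⟨hz.1.trans_le h1, hz.2.trans_le h2⟩

theorem real_mem_Rc {ρ τ : ℝ} (hτ : 0 < τ) {x : ℝ} (hx : |x| < ρ) : (x : ℂ) ∈ Rc ρ τ := by
  refine ⟨by simpa using hx, by simpa using hτ⟩

/-- the two constants property -/
def TCp (ρ τ ρ' τ' : ℝ) : Prop :=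
  ∀ (h : ℂ → ℂ) (B η : ℝ), 0 < η → η ≤ B → DifferentiableOn ℂ h (Rc ρ τ) →
    (∀ z ∈ Rc ρ τ, ‖h z‖ ≤ B) → (∀ x : ℝ, |x| < ρ → ‖h x‖ ≤ η) →
    ∀ z ∈ Rc ρ' τ', ‖h z‖ ≤ Real.sqrt (B * η)

theorem coeff {ρ τ ρ1 τ1 : ℝ} (hτ : 0 < τ) (hρ1 : ρ1 ≤ ρ) (hτ1 : 0 < τ1)
    (hττ : τ1 ≤ τ) (htc : TCp ρ τ ρ1 τ1) {Q : Type} {S : Set Q} {L : ℕ → ℂ → Q → ℂ}
    {a : ℕ → ℂ × Q → ℂ} {C₀ : ℝ}
    (hL : ∀ᶠ N : ℕ in atTop, ∀ q ∈ S, DifferentiableOn ℂ (fun z => L N z q) (Rc ρ τ) ∧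
      ∀ z ∈ Rc ρ τ, ‖L N z q‖ ≤ C₀ * N)
    (hU : UX (fun N (x : ℂ × Q) => L N x.1 x.2) a ({z : ℂ | |z.re| < ρ ∧ z.im = 0} ×ˢ S))
    (k : ℕ) : ∃ (A : ℂ × Q → ℂ) (M : ℝ), 0 ≤ M ∧
      (∀ q ∈ S, DifferentiableOn ℂ (fun z => A (z, q)) (Rc ρ1 τ1)) ∧
      (∀ z ∈ Rc ρ1 τ1, ∀ q ∈ S, ‖A (z, q)‖ ≤ M) ∧
      (∀ x : ℝ, |x| < ρ1 → ∀ q ∈ S, A ((x : ℂ), q) = a k ((x : ℂ), q)) := by
  obtain ⟨n, hn⟩ : ∃ n, n = 2 * k + 5 := ⟨_, rfl⟩
  obtain ⟨c, hc⟩ := exists_c n k (by omega)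
  obtain ⟨C1, hC1⟩ := hU n
  obtain ⟨N1, hN1⟩ := eventually_atTop.1 hC1
  obtain ⟨N2, hN2⟩ := eventually_atTop.1 hL
  set N0 := max (max N1 N2) 1 with hN0
  have hN01 : 1 ≤ N0 := le_max_right _ _
  have hb : ∀ N, N0 ≤ N → ∀ i : ℕ, N1 ≤ 2 ^ i * N ∧ N2 ≤ 2 ^ i * N ∧ N ≤ 2 ^ i * N := by
    intro N hN i
    have h1 : N ≤ 2 ^ i * N := Nat.le_mul_of_pos_left N (by positivity)
    have h2 : N1 ≤ N0 := (le_max_left _ _).trans (le_max_left _ _)
    have h3 : N2 ≤ N0 := (le_max_right _ _).trans (le_max_left _ _)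
    omega
  set W := ∑ i : Fin n, ‖c i‖ with hW
  set W2 := ∑ i : Fin n, ‖c i‖ * 2 ^ (i : ℕ) with hW2
  have hW0 : 0 ≤ W := sum_nonneg fun _ _ => norm_nonneg _
  have hW20 : 0 ≤ W2 := sum_nonneg fun _ _ => by positivity
  set E : ℕ → ℂ → Q → ℂ := fun N z q => (N : ℂ) ^ k * ∑ i : Fin n, c i * L (2 ^ (i : ℕ) * N) z q
    with hE
  set B0 := W * |C1| with hB0
  set B1 := W2 * |C₀| with hB1
  have hB00 : 0 ≤ B0 := by positivity
  have hB10 : 0 ≤ B1 := by positivity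
  -- the real estimate
  have hRE : ∀ N, N0 ≤ N → ∀ x : ℝ, |x| < ρ → ∀ q ∈ S,
      ‖E N x q - a k ((x : ℂ), q)‖ ≤ B0 / (N : ℝ) ^ (k + 5) := by
    intro N hN x hx q hq
    have hNpos : (0 : ℝ) < N := by
      have : 1 ≤ N := by omega
      exact_mod_cast this
    have hNC : (N : ℂ) ≠ 0 := by
      have : N ≠ 0 := by omega
      exact_mod_cast this
    have herr : ∀ i : Fin n, ‖L (2 ^ (i : ℕ) * N) x q -
        ∑ j ∈ range n, a j ((x : ℂ), q) / ((2 ^ (i : ℕ) * N : ℕ) : ℂ) ^ j‖ ≤ |C1| / (N : ℝ) ^ n := by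
      intro i
      obtain ⟨h1, -, h3⟩ := hb N hN i
      refine (hN1 _ h1 ((x : ℂ), q) ⟨⟨by simpa using hx, by simp⟩, hq⟩).trans ?_
      have h4 : (N : ℝ) ≤ ((2 ^ (i : ℕ) * N : ℕ) : ℝ) := by exact_mod_cast h3
      calc C1 / ((2 ^ (i : ℕ) * N : ℕ) : ℝ) ^ n ≤ |C1| / ((2 ^ (i : ℕ) * N : ℕ) : ℝ) ^ n :=
            div_le_div_of_nonneg_right (le_abs_self _) (by positivity)
        _ ≤ |C1| / (N : ℝ) ^ n := div_le_div_of_nonneg_left (abs_nonneg _) (by positivity)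
            (pow_le_pow_left₀ hNpos.le h4 n)
    have hsum : ∑ i : Fin n, c i * ∑ j ∈ range n, a j ((x : ℂ), q) /
        ((2 ^ (i : ℕ) * N : ℕ) : ℂ) ^ j = a k ((x : ℂ), q) / (N : ℂ) ^ k := by
      have h1 : ∀ i : Fin n, c i * ∑ j ∈ range n, a j ((x : ℂ), q) /
          ((2 ^ (i : ℕ) * N : ℕ) : ℂ) ^ j = ∑ j ∈ range n, a j ((x : ℂ), q) / (N : ℂ) ^ j *
            (c i * ((1 / 2 : ℂ) ^ (i : ℕ)) ^ j) := by
        intro i
        rw [mul_sum]
        refine sum_congr rfl fun j _ => ?_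
        push_cast
        rw [mul_pow, one_div_pow, one_div_pow]
        field_simp
      rw [sum_congr rfl fun i _ => h1 i, sum_comm]
      have h2 : ∀ j ∈ range n, ∑ i : Fin n, a j ((x : ℂ), q) / (N : ℂ) ^ j *
          (c i * ((1 / 2 : ℂ) ^ (i : ℕ)) ^ j) =
          if j = k then a j ((x : ℂ), q) / (N : ℂ) ^ j else 0 := by
        intro j hj
        rw [← mul_sum, hc j (mem_range.1 hj)]
        split_ifs <;> simp
      rw [sum_congr rfl h2, sum_ite_eq' (range n) k]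
      rw [if_pos (mem_range.2 (by omega))]
    have hid : E N x q - a k ((x : ℂ), q) = (N : ℂ) ^ k * ∑ i : Fin n, c i *
        (L (2 ^ (i : ℕ) * N) x q -
          ∑ j ∈ range n, a j ((x : ℂ), q) / ((2 ^ (i : ℕ) * N : ℕ) : ℂ) ^ j) := by
      simp only [hE, mul_sub, sum_sub_distrib]
      rw [hsum]
      field_simp
    rw [hid, norm_mul, norm_pow, Complex.norm_natCast]
    calc (N : ℝ) ^ k * ‖∑ i : Fin n, c i * (L (2 ^ (i : ℕ) * N) x q -
          ∑ j ∈ range n, a j ((x : ℂ), q) / ((2 ^ (i : ℕ) * N : ℕ) : ℂ) ^ j)‖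
        ≤ (N : ℝ) ^ k * ∑ i : Fin n, ‖c i‖ * (|C1| / (N : ℝ) ^ n) := by
          apply mul_le_mul_of_nonneg_left _ (by positivity)
          refine (norm_sum_le _ _).trans (sum_le_sum fun i _ => ?_)
          rw [norm_mul]
          exact mul_le_mul_of_nonneg_left (herr i) (norm_nonneg _)
      _ = B0 / (N : ℝ) ^ (k + 5) := by
          have hNn : (N : ℝ) ^ n = (N : ℝ) ^ k * (N : ℝ) ^ (k + 5) := by
            rw [← pow_add]
            congr 1
            omega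
          rw [← sum_mul, hNn, hB0, hW]
          field_simp
  -- the complex estimate
  have hCE : ∀ N, N0 ≤ N → ∀ z ∈ Rc ρ τ, ∀ q ∈ S, ‖E N z q‖ ≤ B1 * (N : ℝ) ^ (k + 1) := by
    intro N hN z hz q hq
    simp only [hE]
    rw [norm_mul, norm_pow, Complex.norm_natCast]
    calc (N : ℝ) ^ k * ‖∑ i : Fin n, c i * L (2 ^ (i : ℕ) * N) z q‖
        ≤ (N : ℝ) ^ k * ∑ i : Fin n, ‖c i‖ * 2 ^ (i : ℕ) * (|C₀| * N) := by
          apply mul_le_mul_of_nonneg_left _ (by positivity)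
          refine (norm_sum_le _ _).trans (sum_le_sum fun i _ => ?_)
          rw [norm_mul, mul_assoc]
          apply mul_le_mul_of_nonneg_left _ (norm_nonneg _)
          obtain ⟨-, h2, -⟩ := hb N hN i
          refine ((hN2 _ h2 q hq).2 z hz).trans ?_
          push_cast
          calc C₀ * (2 ^ (i : ℕ) * (N : ℝ)) ≤ |C₀| * (2 ^ (i : ℕ) * (N : ℝ)) :=
                mul_le_mul_of_nonneg_right (le_abs_self _) (by positivity)
            _ = _ := by ring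
      _ = B1 * (N : ℝ) ^ (k + 1) := by
          rw [← sum_mul, hB1, pow_succ]
          ring
  have hED : ∀ N, N0 ≤ N → ∀ q ∈ S, DifferentiableOn ℂ (fun z => E N z q) (Rc ρ τ) := by
    intro N hN q hq
    simp only [hE]
    refine DifferentiableOn.const_mul ?_ _
    refine DifferentiableOn.fun_sum fun i _ => ?_
    exact ((hN2 _ (hb N hN i).2.1 q hq).1).const_mul _
  -- the differences
  set CC := B1 * (1 + 2 ^ (k + 1)) + 2 * B0 + 1 with hCC
  have hCC1 : 1 ≤ CC := by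
    have : 0 ≤ B1 * (1 + 2 ^ (k + 1)) := by positivity
    linarith
  have hdif : ∀ N, N0 ≤ N → ∀ p ∈ Rc ρ1 τ1 ×ˢ S,
      ‖E N p.1 p.2 - E (N + 1) p.1 p.2‖ ≤ CC / (N : ℝ) ^ 2 := by
    rintro N hN ⟨z, q⟩ ⟨hz, hq⟩
    have hN1' : (1 : ℝ) ≤ N := by
      have : 1 ≤ N := by omega
      exact_mod_cast this
    have hNpos : (0 : ℝ) < N := by linarith
    have hpw : (1 : ℝ) ≤ (N : ℝ) ^ (k + 1) := one_le_pow₀ hN1'
    have hpw5 : (1 : ℝ) ≤ (N : ℝ) ^ (k + 5) := one_le_pow₀ hN1'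
    have := htc (fun z => E N z q - E (N + 1) z q) (CC * (N : ℝ) ^ (k + 1))
      (CC / (N : ℝ) ^ (k + 5)) (by positivity) ?_ ((hED N hN q hq).sub (hED (N + 1) (by omega) q hq))
      ?_ ?_ z hz
    · have h1 : CC * (N : ℝ) ^ (k + 1) * (CC / (N : ℝ) ^ (k + 5)) = (CC / (N : ℝ) ^ 2) ^ 2 := by
        rw [show k + 5 = (k + 1) + 4 by ring, pow_add (N : ℝ) (k + 1) 4]
        field_simp
      rw [h1, Real.sqrt_sq (by positivity)] at this
      exact this
    · calc CC / (N : ℝ) ^ (k + 5) ≤ CC := div_le_self (by linarith) hpw5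
        _ ≤ CC * (N : ℝ) ^ (k + 1) := le_mul_of_one_le_right (by linarith) hpw
    · intro z hz
      have h1 := hCE N hN z hz q hq
      have h2 := hCE (N + 1) (by omega) z hz q hq
      have h3 : (((N + 1 : ℕ)) : ℝ) ^ (k + 1) ≤ 2 ^ (k + 1) * (N : ℝ) ^ (k + 1) := by
        rw [← mul_pow]
        apply pow_le_pow_left₀ (by positivity)
        push_cast
        linarith
      calc ‖E N z q - E (N + 1) z q‖ ≤ ‖E N z q‖ + ‖E (N + 1) z q‖ := norm_sub_le _ _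
        _ ≤ B1 * (N : ℝ) ^ (k + 1) + B1 * (2 ^ (k + 1) * (N : ℝ) ^ (k + 1)) :=
            add_le_add h1 (h2.trans (mul_le_mul_of_nonneg_left h3 hB10))
        _ = B1 * (1 + 2 ^ (k + 1)) * (N : ℝ) ^ (k + 1) := by ring
        _ ≤ CC * (N : ℝ) ^ (k + 1) := by
            apply mul_le_mul_of_nonneg_right _ (by positivity)
            linarith
    · intro x hx
      have h1 := hRE N hN x hx q hq
      have h2 := hRE (N + 1) (by omega) x hx q hq
      have h3 : B0 / (((N + 1 : ℕ)) : ℝ) ^ (k + 5) ≤ B0 / (N : ℝ) ^ (k + 5) := by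
        apply div_le_div_of_nonneg_left hB00 (by positivity)
        apply pow_le_pow_left₀ hNpos.le
        push_cast
        linarith
      calc ‖E N x q - E (N + 1) x q‖ =
          ‖(E N x q - a k ((x : ℂ), q)) - (E (N + 1) x q - a k ((x : ℂ), q))‖ := by
            congr 1; ring
        _ ≤ ‖E N x q - a k ((x : ℂ), q)‖ + ‖E (N + 1) x q - a k ((x : ℂ), q)‖ := norm_sub_le _ _
        _ ≤ B0 / (N : ℝ) ^ (k + 5) + B0 / (N : ℝ) ^ (k + 5) := add_le_add h1 (h2.trans h3)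
        _ = (2 * B0) / (N : ℝ) ^ (k + 5) := by ring
        _ ≤ CC / (N : ℝ) ^ (k + 5) := by
            apply div_le_div_of_nonneg_right _ (by positivity)
            have : 0 ≤ B1 * (1 + 2 ^ (k + 1)) := by positivity
            linarith
  obtain ⟨F, hF⟩ := lim_lemma (Rc ρ1 τ1 ×ˢ S) (fun N p => E N p.1 p.2) CC (by linarith) N0 hN01 hdif
  have hsub : Rc ρ1 τ1 ⊆ Rc ρ τ := Rc_mono hρ1 hττ
  refine ⟨F, B1 * (N0 : ℝ) ^ (k + 1) + 2 * CC / N0, by positivity, ?_, ?_, ?_⟩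
  · intro q hq
    have hunif : TendstoUniformlyOn (fun N z => E N z q) (fun z => F (z, q)) atTop (Rc ρ1 τ1) := by
      rw [Metric.tendstoUniformlyOn_iff]
      intro ε hε
      have h1 := tendsto_const_div_atTop_nhds_zero_nat (2 * CC)
      filter_upwards [h1.eventually (gt_mem_nhds hε), eventually_ge_atTop N0] with N hN hN' z hz
      rw [dist_comm, dist_eq_norm]
      exact (hF N hN' (z, q) ⟨hz, hq⟩).trans_lt hN
    refine hunif.tendstoLocallyUniformlyOn.differentiableOn ?_ (isOpen_Rc _ _)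
    filter_upwards [eventually_ge_atTop N0] with N hN
    exact (hED N hN q hq).mono hsub
  · intro z hz q hq
    have h1 := hF N0 le_rfl (z, q) ⟨hz, hq⟩
    have h2 := hCE N0 le_rfl z (hsub hz) q hq
    calc ‖F (z, q)‖ = ‖E N0 z q - (E N0 z q - F (z, q))‖ := by congr 1; ring
      _ ≤ ‖E N0 z q‖ + ‖E N0 z q - F (z, q)‖ := norm_sub_le _ _
      _ ≤ _ := add_le_add h2 h1
  · intro x hx q hq
    have h1 : ∀ᶠ N : ℕ in atTop, ‖F ((x : ℂ), q) - a k ((x : ℂ), q)‖ ≤ (2 * CC + B0) / N := by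
      filter_upwards [eventually_ge_atTop N0] with N hN
      have hN1' : (1 : ℝ) ≤ N := by
        have : 1 ≤ N := by omega
        exact_mod_cast this
      have h2 := hF N hN ((x : ℂ), q) ⟨real_mem_Rc hτ1 hx, hq⟩
      have h3 := hRE N hN x (hx.trans_le hρ1) q hq
      have h4 : B0 / (N : ℝ) ^ (k + 5) ≤ B0 / N := by
        apply div_le_div_of_nonneg_left hB00 (by linarith)
        exact le_self_pow₀ hN1' (by omega)
      calc ‖F ((x : ℂ), q) - a k ((x : ℂ), q)‖ =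
          ‖(E N x q - a k ((x : ℂ), q)) - (E N x q - F ((x : ℂ), q))‖ := by congr 1; ring
        _ ≤ ‖E N x q - a k ((x : ℂ), q)‖ + ‖E N x q - F ((x : ℂ), q)‖ := norm_sub_le _ _
        _ ≤ B0 / N + 2 * CC / N := add_le_add (h3.trans h4) h2
        _ = _ := by ring
    have h5 := ge_of_tendsto (tendsto_const_div_atTop_nhds_zero_nat (2 * CC + B0)) h1
    exact sub_eq_zero.1 (norm_le_zero_iff.1 h5)

theorem ext (hTC : S_TC) : S_EXT := by
  intro ρ τ hρ hτ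
  obtain ⟨τ1, hτ1, hτ1', htc1⟩ := hTC ρ τ (ρ / 2) hτ (by positivity) (by linarith)
  obtain ⟨τ2, hτ2, hτ2', htc2⟩ := hTC (ρ / 2) τ1 (ρ / 4) hτ1 (by positivity) (by linarith)
  refine ⟨ρ / 4, τ2, by positivity, by linarith, hτ2, hτ2'.trans hτ1', ?_⟩
  intro Q S L a C₀ hL hU
  have hco := coeff hτ (by linarith : ρ / 2 ≤ ρ) hτ1 hτ1' htc1 hL hU
  choose A M hM hA1 hA2 hA3 using hco
  refine ⟨A, fun K => ?_⟩
  obtain ⟨C1, hC1⟩ := hU (2 * K + 1)
  set CC := |C₀| + ∑ k ∈ range (2 * K + 1), M k + |C1| + 1 with hCC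
  have hMs : 0 ≤ ∑ k ∈ range (2 * K + 1), M k := sum_nonneg fun k _ => hM k
  have hCC1 : 1 ≤ CC := by
    have := abs_nonneg C₀
    have := abs_nonneg C1
    linarith
  have hsub1 : Rc (ρ / 2) τ1 ⊆ Rc ρ τ := Rc_mono (by linarith) hτ1'
  have hsub2 : Rc (ρ / 4) τ2 ⊆ Rc (ρ / 2) τ1 := Rc_mono (by linarith) hτ2'
  refine ⟨CC + ∑ k ∈ range (2 * K + 1), M k, ?_⟩
  filter_upwards [hC1, hL, eventually_ge_atTop 1] with N hN1 hN2 hN3
  rintro ⟨z, q⟩ ⟨hz, hq⟩
  have hN1' : (1 : ℝ) ≤ N := by exact_mod_cast hN3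
  have hNpos : (0 : ℝ) < N := by linarith
  have hAN : ∀ z ∈ Rc (ρ / 2) τ1, ∀ k, ‖A k (z, q) / (N : ℂ) ^ k‖ ≤ M k / (N : ℝ) ^ k := by
    intro z hz k
    rw [norm_div, norm_pow, Complex.norm_natCast]
    exact div_le_div_of_nonneg_right (hA2 k z hz q hq) (by positivity)
  have hD := htc2 (fun z => L N z q - ∑ k ∈ range (2 * K + 1), A k (z, q) / (N : ℂ) ^ k)
    (CC * N) (CC / (N : ℝ) ^ (2 * K + 1)) (by positivity) ?_ ?_ ?_ ?_ z hz
  · have e1 : CC * (N : ℝ) * (CC / (N : ℝ) ^ (2 * K + 1)) = (CC / (N : ℝ) ^ K) ^ 2 := by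
      rw [pow_succ, pow_mul']
      field_simp
    rw [e1, Real.sqrt_sq (by positivity)] at hD
    have e2 : L N z q - ∑ k ∈ range K, A k (z, q) / (N : ℂ) ^ k =
        (L N z q - ∑ k ∈ range (2 * K + 1), A k (z, q) / (N : ℂ) ^ k) +
          ∑ k ∈ Ico K (2 * K + 1), A k (z, q) / (N : ℂ) ^ k := by
      rw [← sum_range_add_sum_Ico _ (by omega : K ≤ 2 * K + 1)]
      ring
    show ‖L N z q - ∑ k ∈ range K, A k (z, q) / (N : ℂ) ^ k‖ ≤ _
    rw [e2, add_div]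
    refine (norm_add_le _ _).trans (add_le_add hD ?_)
    calc ‖∑ k ∈ Ico K (2 * K + 1), A k (z, q) / (N : ℂ) ^ k‖
        ≤ ∑ k ∈ Ico K (2 * K + 1), M k / (N : ℝ) ^ K := by
          refine (norm_sum_le _ _).trans (sum_le_sum fun k hk => ?_)
          refine (hAN z (hsub2 hz) k).trans ?_
          apply div_le_div_of_nonneg_left (hM k) (by positivity)
          exact pow_le_pow_right₀ hN1' (mem_Ico.1 hk).1
      _ ≤ ∑ k ∈ range (2 * K + 1), M k / (N : ℝ) ^ K := by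
          apply sum_le_sum_of_subset_of_nonneg
          · intro k hk
            exact mem_range.2 (mem_Ico.1 hk).2
          · intro k _ _
            exact div_nonneg (hM k) (by positivity)
      _ = _ := by rw [sum_div]
  · calc CC / (N : ℝ) ^ (2 * K + 1) ≤ CC := div_le_self (by linarith) (one_le_pow₀ hN1')
      _ ≤ CC * N := le_mul_of_one_le_right (by linarith) hN1'
  · refine (((hN2 q hq).1).mono hsub1).sub ?_
    refine DifferentiableOn.fun_sum fun k _ => ?_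
    exact (hA1 k q hq).div_const _
  · intro z hz
    have h1 := (hN2 q hq).2 z (hsub1 hz)
    calc ‖L N z q - ∑ k ∈ range (2 * K + 1), A k (z, q) / (N : ℂ) ^ k‖
        ≤ ‖L N z q‖ + ‖∑ k ∈ range (2 * K + 1), A k (z, q) / (N : ℂ) ^ k‖ := norm_sub_le _ _
      _ ≤ |C₀| * N + ∑ k ∈ range (2 * K + 1), M k := by
          apply add_le_add
          · exact h1.trans (mul_le_mul_of_nonneg_right (le_abs_self _) hNpos.le)
          · refine (norm_sum_le _ _).trans (sum_le_sum fun k _ => ?_)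
            exact (hAN z hz k).trans (div_le_self (hM k) (one_le_pow₀ hN1'))
      _ ≤ |C₀| * N + (∑ k ∈ range (2 * K + 1), M k) * N := by
          have := le_mul_of_one_le_right hMs hN1'
          linarith
      _ ≤ CC * N := by
          have h2 : 0 ≤ |C1| * N := by positivity
          have e : CC * N = |C₀| * N + (∑ k ∈ range (2 * K + 1), M k) * N + |C1| * N + N := by
            rw [hCC]; ring
          rw [e]
          linarith
  · intro x hx
    have h1 : ∀ k, A k ((x : ℂ), q) = a k ((x : ℂ), q) := fun k => hA3 k x hx q hq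
    simp only [h1]
    refine (hN1 ((x : ℂ), q) ⟨⟨by simpa using (hx.trans_le (by linarith : ρ / 2 ≤ ρ)), by simp⟩,
      hq⟩).trans ?_
    apply div_le_div_of_nonneg_right _ (by positivity)
    have := le_abs_self C1
    have := abs_nonneg C₀
    linarith

end Pool.Agent.W414.AX
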